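import Pool.Agent.helper20.VVO.Spec2

/-!
# Row vvo:LEN: the choice of the length
-/

set_option autoImplicit false

open Filter Topology

namespace Pool.Agent.VVO

open Pool.Agent.PB Pool.Agent.ISO Pool.Agent.ISA

/-- the length of the witnesses -/
theorem LEN_w (n c : ℕ) (hn : c + 2 ≤ n) : n ^ c + c + 1 ≤ n ^ (c + 1) := by
  have h1 : 1 ≤ n ^ c := Nat.one_le_pow _ _ (by omega)
  have h2 : n ^ (c + 1) = n ^ c * n := pow_succ n c
  rw [h2]
  nlinarith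

/-- the number of blocks, case 2 -/
theorem LEN_kn (ε : ℝ) (a c n ρ k : ℕ) (x : ℝ) (hn : 1 ≤ n) (hρ : ρ ≤ n) (ha : ((c + 3 : ℕ) : ℝ) ≤ (a : ℝ) * ε)
    (hx : x ≤ ((n ^ a : ℕ) : ℝ) ^ (1 - ε)) (hk : (k : ℝ) ≤ ρ * x) : k * n ^ (c + 2) ≤ n ^ a := by
  have hn' : (1 : ℝ) ≤ n := by exact_mod_cast hn
  have h0 : (0 : ℝ) < n := by linarith
  have hρ' : (ρ : ℝ) ≤ n := by exact_mod_cast hρ
  have h1 : ((n ^ a : ℕ) : ℝ) ^ (1 - ε) * (n : ℝ) ^ (c + 3) = (n : ℝ) ^ ((a : ℝ) * (1 - ε) + ((c + 3 : ℕ) : ℝ)) := by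
    rw [Real.rpow_add h0, Real.rpow_mul h0.le, Real.rpow_natCast, Real.rpow_natCast, Nat.cast_pow]
  have h2 : (n : ℝ) ^ ((a : ℝ) * (1 - ε) + ((c + 3 : ℕ) : ℝ)) ≤ (n : ℝ) ^ (a : ℝ) :=
    Real.rpow_le_rpow_of_exponent_le hn' (by nlinarith)
  rw [Real.rpow_natCast] at h2
  have hp : 0 ≤ ((n ^ a : ℕ) : ℝ) ^ (1 - ε) := Real.rpow_nonneg (Nat.cast_nonneg _) _
  have hq : (0 : ℝ) ≤ (n : ℝ) ^ (c + 2) := by positivity
  have h3 : (k : ℝ) * (n : ℝ) ^ (c + 2) ≤ (n : ℝ) ^ a := by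
    calc (k : ℝ) * (n : ℝ) ^ (c + 2) ≤ (ρ * x) * (n : ℝ) ^ (c + 2) := mul_le_mul_of_nonneg_right hk hq
      _ ≤ (ρ * ((n ^ a : ℕ) : ℝ) ^ (1 - ε)) * (n : ℝ) ^ (c + 2) :=
          mul_le_mul_of_nonneg_right (mul_le_mul_of_nonneg_left hx (Nat.cast_nonneg _)) hq
      _ ≤ (n * ((n ^ a : ℕ) : ℝ) ^ (1 - ε)) * (n : ℝ) ^ (c + 2) :=
          mul_le_mul_of_nonneg_right (mul_le_mul_of_nonneg_right hρ' hp) hq
      _ = ((n ^ a : ℕ) : ℝ) ^ (1 - ε) * (n : ℝ) ^ (c + 3) := by ring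
      _ = _ := h1
      _ ≤ _ := h2
  exact_mod_cast h3

/-- the inequality of case 2 -/
theorem LEN_ineq (ε H P Lg Sm k N : ℝ) (hε : 0 < ε) (hε1 : ε < 1) (hH : 0 < H) (hP : (1 + ε) * H ≤ P * Lg)
    (hLg : 0 < Lg) (hS : (1 - ε / 4) * Lg ≤ Sm) (hN : 8 / ε < N) (hk : k ≤ N) :
    H * (1 + 4 * k / N ^ 2) < P * Sm := by
  have hN0 : 0 < N := lt_trans (by positivity) hN
  have hP0 : 0 < P := by
    by_contra hneg
    rw [not_lt] at hneg
    have h1 : P * Lg ≤ 0 := mul_nonpos_of_nonpos_of_nonneg hneg hLg.le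
    have h2 : 0 < (1 + ε) * H := by positivity
    linarith
  have h1 : 4 * k / N ^ 2 ≤ 4 / N := by
    rw [div_le_div_iff₀ (by positivity) hN0]
    nlinarith
  have h2 : 4 / N < ε / 2 := by
    rw [div_lt_iff₀ hε] at hN
    rw [div_lt_div_iff₀ hN0 two_pos]
    linarith
  have h3 : P * ((1 - ε / 4) * Lg) ≤ P * Sm := mul_le_mul_of_nonneg_left hS hP0.le
  have h4 : (1 - ε / 4) * ((1 + ε) * H) ≤ (1 - ε / 4) * (P * Lg) :=
    mul_le_mul_of_nonneg_left hP (by linarith)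
  have h5 : H * (1 + ε / 2) ≤ (1 - ε / 4) * ((1 + ε) * H) := by
    have : 0 ≤ H * (ε / 4 * (1 - ε)) := by
      have : 0 ≤ 1 - ε := by linarith
      positivity
    nlinarith
  have h6 : H * (1 + 4 * k / N ^ 2) < H * (1 + ε / 2) := mul_lt_mul_of_pos_left (by linarith) hH
  calc H * (1 + 4 * k / N ^ 2) < H * (1 + ε / 2) := h6
    _ ≤ (1 - ε / 4) * ((1 + ε) * H) := h5
    _ ≤ (1 - ε / 4) * (P * Lg) := h4
    _ = P * ((1 - ε / 4) * Lg) := by ring
    _ ≤ P * Sm := h3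

/-- case 1: the numbers -/
theorem LEN_case1 (b c n w M M' R C : ℕ) (hn : c + 2 ≤ n) (hC : C ≤ n) (hb : c + 2 ≤ b) (hw : w ≤ n ^ c + c)
    (hM : M ^ 4 ≤ n ^ (2 * b)) (h1M : 1 ≤ M) (hM' : M' ≤ C * M ^ 2) (hR : R ≤ C * M) :
    M' * n ≤ n ^ (2 * b) ∧ R + M' * w ≤ n ^ (2 * b) := by
  have h1 : M ^ 2 ≤ n ^ b := by
    have h : (M ^ 2) ^ 2 ≤ (n ^ b) ^ 2 := by
      rw [← pow_mul, ← pow_mul, mul_comm b 2]
      exact hM
    exact (Nat.pow_le_pow_iff_left (by norm_num)).1 h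
  have h2 : M' ≤ n * n ^ b := hM'.trans (Nat.mul_le_mul hC h1)
  have h3 : R ≤ n * n ^ b := by
    have : M ≤ M ^ 2 := by nlinarith
    exact hR.trans (Nat.mul_le_mul hC (this.trans h1))
  have h4 : n * n ^ b * n ^ (c + 1) ≤ n ^ (2 * b) := by
    have : n * n ^ b * n ^ (c + 1) = n ^ (b + (c + 2)) := by ring
    rw [this]
    exact Nat.pow_le_pow_right (by omega) (by omega)
  have h5 := LEN_w n c hn
  constructor
  · have h6 : n ≤ n ^ (c + 1) := by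
      calc n = n ^ 1 := (pow_one n).symm
        _ ≤ n ^ (c + 1) := Nat.pow_le_pow_right (by omega) (by omega)
    exact (Nat.mul_le_mul h2 h6).trans h4
  · calc R + M' * w ≤ n * n ^ b + n * n ^ b * (n ^ c + c) := Nat.add_le_add h3 (Nat.mul_le_mul h2 hw)
      _ = n * n ^ b * (n ^ c + c + 1) := by ring
      _ ≤ n * n ^ b * n ^ (c + 1) := Nat.mul_le_mul_left _ h5
      _ ≤ _ := h4

theorem LEN (hDNQ : ISA.DNQ_stmt) (hLIM : ISO.LIM_stmt) (hTRN : ISA.TRN_stmt) (hTHA : ISA.THA_stmt)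
    (hNUM : NUM_stmt) : LEN_stmt := by
  intro ε j hε hε1 hj c
  obtain ⟨C0, hC0⟩ := hDNQ ε hε
  obtain ⟨C, hC⟩ := exists_nat_ge C0
  obtain ⟨ρ, hρ⟩ := hNUM (ε / 8) (by linarith)
  have hH : 0 < (harmonic j : ℝ) := by
    have h1 : 0 < harmonic j := harmonic_pos (by omega)
    exact_mod_cast h1
  -- the limit
  obtain ⟨m0, hm0⟩ : ∃ m0 : ℕ, ∀ m, m0 ≤ m → (1 - ε / 8) * (harmonic j : ℝ) ≤ theta m j * Real.log m := by
    have h1 := hLIM.2 j hj
    have h2 : (1 - ε / 8) * (harmonic j : ℝ) < (harmonic j : ℝ) := by nlinarith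
    exact eventually_atTop.1 (h1.eventually_const_le h2)
  obtain ⟨b0, hb0⟩ := exists_nat_gt (((c + 3 : ℕ) : ℝ) / ε)
  set b : ℕ := b0 + c + 2 with hbdef
  have ha : ((c + 3 : ℕ) : ℝ) ≤ ((2 * b : ℕ) : ℝ) * ε := by
    have h1 : ((c + 3 : ℕ) : ℝ) / ε ≤ ((2 * b : ℕ) : ℝ) := by
      refine hb0.le.trans ?_
      exact_mod_cast (by omega : b0 ≤ 2 * b)
    rwa [div_le_iff₀ hε] at h1
  obtain ⟨n2, hn2⟩ := exists_nat_gt (16 / ε)
  refine ⟨2 * b, c + 2 + C + ρ + m0 + n2, by omega, ?_⟩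
  rintro n w N M p hn hw rfl hM hlog hp
  have hcrit := hTHA M (Set.Icc 1 j) hM ⟨le_rfl, hj⟩
  have hnN : n ≤ n ^ (2 * b) := by
    calc n = n ^ 1 := (pow_one n).symm
      _ ≤ n ^ (2 * b) := Nat.pow_le_pow_right (by omega) (by omega)
  by_cases hcase : M ^ 4 ≤ n ^ (2 * b)
  · left
    obtain ⟨M', R, K, k1, k2, k3, k4⟩ := hC0 M (Set.Icc 1 j) p hM ⟨le_rfl, hj⟩ hp
    have hMr : (1 : ℝ) ≤ M := by exact_mod_cast hM
    have hlogM : 1 + Real.log M ≤ M := by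
      have := Real.log_le_sub_one_of_pos (show (0 : ℝ) < M by linarith)
      linarith
    have hlog0 : 0 ≤ 1 + Real.log M := by
      have := Real.log_nonneg hMr
      linarith
    have e1 : (M' : ℝ) ≤ C * (M : ℝ) ^ 2 := by
      calc (M' : ℝ) ≤ C0 * M * (1 + Real.log M) := k2
        _ ≤ C * M * (1 + Real.log M) := by
            refine mul_le_mul_of_nonneg_right (mul_le_mul_of_nonneg_right hC (by linarith)) hlog0
        _ ≤ C * M * M := mul_le_mul_of_nonneg_left hlogM (by positivity)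
        _ = _ := by ring
    have e2 : (R : ℝ) ≤ C * (M : ℝ) :=
      k3.trans (mul_le_mul_of_nonneg_right hC (by linarith))
    have e1' : M' ≤ C * M ^ 2 := by exact_mod_cast e1
    have e2' : R ≤ C * M := by exact_mod_cast e2
    obtain ⟨r1, r2⟩ := LEN_case1 b c n w M M' R C (by omega) (by omega) (by omega) hw hcase hM e1' e2'
    exact ⟨M', R, K, k1, r1, r2, k4⟩
  · right
    rw [not_le] at hcase
    have hMn : n < M := by
      by_contra hcon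
      rw [not_lt] at hcon
      have h1 : M ^ 4 ≤ n ^ 4 := Nat.pow_le_pow_left hcon 4
      have h2 : n ^ 4 ≤ n ^ (2 * b) := Nat.pow_le_pow_right (by omega) (by omega)
      omega
    have hM2 : 2 ≤ M := by omega
    obtain ⟨k, l, hl, hlk, hch, hk, hsum⟩ := hρ M hM2
    have q1 := LEN_kn ε (2 * b) c n ρ k _ (by omega) (by omega) ha hlog hk
    have q2 : k * n ≤ n ^ (2 * b) := by
      refine le_trans (Nat.mul_le_mul_left k ?_) q1
      calc n = n ^ 1 := (pow_one n).symm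
        _ ≤ n ^ (c + 2) := Nat.pow_le_pow_right (by omega) (by omega)
    have q3 : k + k * w ≤ n ^ (2 * b) := by
      calc k + k * w ≤ k + k * (n ^ c + c) := Nat.add_le_add_left (Nat.mul_le_mul_left k hw) k
        _ = k * (n ^ c + c + 1) := by ring
        _ ≤ k * n ^ (c + 2) := by
            refine Nat.mul_le_mul_left k ((LEN_w n c (by omega)).trans ?_)
            exact Nat.pow_le_pow_right (by omega) (by omega)
        _ ≤ _ := q1
    refine ⟨k, l, hl, hlk, hch, q2, q3, ?_⟩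
    have hkN : k ≤ n ^ (2 * b) := (Nat.le_mul_of_pos_right k (by omega)).trans q2
    have hLg : 0 < Real.log M := Real.log_pos (by exact_mod_cast hM2)
    have hθ := hm0 M (by omega)
    rw [← hTRN.2.1 M j] at hθ
    have hP : (1 + ε / 2) * (harmonic j : ℝ) ≤ p * Real.log M := by
      have h1 : (1 + ε) * crit M (Set.Icc 1 j) * Real.log M ≤ p * Real.log M :=
        mul_le_mul_of_nonneg_right hp hLg.le
      have h2 : (1 + ε) * ((1 - ε / 8) * (harmonic j : ℝ)) ≤ (1 + ε) * (crit M (Set.Icc 1 j) * Real.log M) :=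
        mul_le_mul_of_nonneg_left hθ (by linarith)
      have h3 : (1 + ε / 2) * (harmonic j : ℝ) ≤ (1 + ε) * ((1 - ε / 8) * (harmonic j : ℝ)) := by
        have : 0 ≤ (harmonic j : ℝ) * (ε * (3 - ε)) := by
          have : 0 ≤ 3 - ε := by linarith
          positivity
        nlinarith
      linarith
    have hcast : (((n ^ (2 * b)) ^ 2 : ℕ) : ℝ) = (((n ^ (2 * b) : ℕ) : ℝ)) ^ 2 := by push_cast; ring
    rw [hcast]
    refine LEN_ineq (ε / 2) _ _ (Real.log M) _ k _ (by linarith) (by linarith) hH hP hLg ?_ ?_ ?_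
    · have h1 : 1 - ε / 2 / 4 = 1 - ε / 8 := by ring
      rw [h1]
      exact hsum
    · have h1 : 8 / (ε / 2) = 16 / ε := by field_simp; norm_num
      rw [h1]
      refine hn2.trans_le ?_
      exact_mod_cast (by omega : n2 ≤ n ^ (2 * b))
    · exact_mod_cast hkN

end Pool.Agent.VVO
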